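import Pool.Agent.KACG.Slopes

/-!
# KACG, row S_HOL: lower bound for the harmonic oscillator
-/

open MeasureTheory
open scoped ComplexConjugate ContDiff

noncomputable section

namespace Pool.Agent.KACG.H89

open Pool.Agent.KACG

theorem intg {E : Type} [NormedAddCommGroup E] {F : ℝ → E} {K : Set ℝ} (hK : IsCompact K)
    (hF : Continuous F) (h0 : ∀ x, x ∉ K → F x = 0) : Integrable F :=
  hF.integrable_of_hasCompactSupport (HasCompactSupport.intro hK h0)

/-- the integral of the derivative of a function of compact support -/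
theorem int_zero {E : Type} [NormedAddCommGroup E] [NormedSpace ℝ E] [CompleteSpace E]
    {g g' : ℝ → E} {K : Set ℝ}
    (hK : IsCompact K) (hd : ∀ x, HasDerivAt g (g' x) x) (hc : Continuous g')
    (h0 : ∀ x, x ∉ K → g x = 0) (h0' : ∀ x, x ∉ K → g' x = 0) : ∫ x, g' x = 0 :=
  integral_eq_zero_of_hasDerivAt_of_integrable hd (intg hK hc h0')
    (intg hK (continuous_iff_continuousAt.2 fun x => (hd x).continuousAt) h0)

/-- data: a smooth function which vanishes, with its derivative, off a compact set -/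
structure CS (K : Set ℝ) (f : ℝ → ℂ) : Prop where
  sm : ContDiff ℝ ∞ f
  z : ∀ x, x ∉ K → f x = 0
  z' : ∀ x, x ∉ K → deriv f x = 0

theorem CS.hd {K : Set ℝ} {f : ℝ → ℂ} (h : CS K f) (x : ℝ) : HasDerivAt f (deriv f x) x :=
  (h.sm.differentiable (by simp)).differentiableAt.hasDerivAt

theorem CS.c {K : Set ℝ} {f : ℝ → ℂ} (h : CS K f) : Continuous f := h.sm.continuous

theorem CS.c' {K : Set ℝ} {f : ℝ → ℂ} (h : CS K f) : Continuous (deriv f) :=
  (contDiff_infty_iff_deriv.1 h.sm).2.continuous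

theorem hd_sq {K : Set ℝ} {f : ℝ → ℂ} (h : CS K f) (x : ℝ) :
    HasDerivAt (fun x => x * ‖f x‖ ^ 2)
      (‖f x‖ ^ 2 + x * (2 * inner ℝ (f x) (deriv f x))) x := by
  have h1 := (hasDerivAt_id x).mul (h.hd x).norm_sq
  have h2 : 1 * ‖f x‖ ^ 2 + id x * (2 * inner ℝ (f x) (deriv f x)) =
      ‖f x‖ ^ 2 + x * (2 * inner ℝ (f x) (deriv f x)) := by
    rw [one_mul]
    rfl
  rw [← h2]
  exact h1

theorem sq_id {K : Set ℝ} (hK : IsCompact K) {f : ℝ → ℂ} (h : CS K f) (w σ : ℝ) (hσ : σ ^ 2 = 1) :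
    ∫ x, ‖σ • deriv f x + (w * x) • f x‖ ^ 2 = ho w f - σ * w * ∫ x, ‖f x‖ ^ 2 := by
  have hc := h.c
  have hc' := h.c'
  have e : ∀ x, ‖σ • deriv f x + (w * x) • f x‖ ^ 2 =
      (‖deriv f x‖ ^ 2 + w ^ 2 * x ^ 2 * ‖f x‖ ^ 2) +
        (σ * w * (‖f x‖ ^ 2 + x * (2 * inner ℝ (f x) (deriv f x))) - σ * w * ‖f x‖ ^ 2) := by
    intro x
    rw [norm_add_sq_real, norm_smul, norm_smul, real_inner_smul_left, real_inner_smul_right,
      real_inner_comm (f x) (deriv f x), mul_pow, mul_pow, Real.norm_eq_abs, Real.norm_eq_abs,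
      sq_abs, sq_abs, hσ]
    ring
  have hi1 : Integrable fun x => ‖deriv f x‖ ^ 2 + w ^ 2 * x ^ 2 * ‖f x‖ ^ 2 := by
    refine intg hK (by fun_prop) fun x hx => ?_
    rw [h.z x hx, h.z' x hx]
    simp
  have hcont : Continuous fun x => ‖f x‖ ^ 2 + x * (2 * inner ℝ (f x) (deriv f x)) := by
    have h1 : Continuous fun x => inner ℝ (f x) (deriv f x) := hc.inner hc'
    fun_prop
  have hz : ∀ x, x ∉ K → ‖f x‖ ^ 2 + x * (2 * inner ℝ (f x) (deriv f x)) = 0 := by
    intro x hx
    rw [h.z x hx]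
    simp
  have hi2 : Integrable fun x => ‖f x‖ ^ 2 + x * (2 * inner ℝ (f x) (deriv f x)) :=
    intg hK hcont hz
  have hi3 : Integrable fun x => ‖f x‖ ^ 2 := by
    refine intg hK (by fun_prop) fun x hx => ?_
    rw [h.z x hx]
    simp
  have h0 : ∫ x, (‖f x‖ ^ 2 + x * (2 * inner ℝ (f x) (deriv f x))) = 0 := by
    refine int_zero hK (fun x => hd_sq h x) hcont (fun x hx => ?_) hz
    rw [h.z x hx]
    simp
  have i4 : Integrable fun x => σ * w * (‖f x‖ ^ 2 + x * (2 * inner ℝ (f x) (deriv f x))) -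
      σ * w * ‖f x‖ ^ 2 := (hi2.const_mul (σ * w)).sub (hi3.const_mul (σ * w))
  rw [integral_congr_ae (Filter.Eventually.of_forall e), integral_add hi1 i4,
    integral_sub (hi2.const_mul (σ * w)) (hi3.const_mul (σ * w)),
    integral_const_mul, integral_const_mul, h0]
  unfold ho
  ring

theorem adj {K : Set ℝ} (hK : IsCompact K) {f v : ℝ → ℂ} (h : CS K f) (h' : CS K v) (w : ℝ) :
    ∫ x, inner ℝ (deriv f x + (w * x) • f x) (v x) =
      ∫ x, inner ℝ (f x) (-deriv v x + (w * x) • v x) := by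
  have hc := h.c
  have hc' := h.c'
  have kc := h'.c
  have kc' := h'.c'
  have c1 : Continuous fun x => inner ℝ (f x) (deriv v x) := hc.inner kc'
  have c2 : Continuous fun x => inner ℝ (deriv f x) (v x) := hc'.inner kc
  have c3 : Continuous fun x => inner ℝ (deriv f x + (w * x) • f x) (v x) :=
    Continuous.inner (by fun_prop) kc
  have c4 : Continuous fun x => inner ℝ (f x) (-deriv v x + (w * x) • v x) :=
    Continuous.inner hc (by fun_prop)
  have h1 : ∫ x, (inner ℝ (f x) (deriv v x) + inner ℝ (deriv f x) (v x)) = 0 := by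
    refine int_zero hK (fun x => (h.hd x).inner ℝ (h'.hd x)) (c1.add c2) (fun x hx => ?_)
      (fun x hx => ?_)
    · rw [h.z x hx]
      simp
    · rw [h.z x hx, h'.z x hx]
      simp
  have i1 : Integrable fun x => inner ℝ (deriv f x + (w * x) • f x) (v x) := by
    refine intg hK c3 fun x hx => ?_
    rw [h'.z x hx]
    simp
  have i2 : Integrable fun x => inner ℝ (f x) (-deriv v x + (w * x) • v x) := by
    refine intg hK c4 fun x hx => ?_
    rw [h.z x hx]
    simp
  rw [← sub_eq_zero, ← integral_sub i1 i2, ← h1]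
  apply integral_congr_ae
  refine Filter.Eventually.of_forall fun x => ?_
  show inner ℝ (deriv f x + (w * x) • f x) (v x) - inner ℝ (f x) (-deriv v x + (w * x) • v x) =
    inner ℝ (f x) (deriv v x) + inner ℝ (deriv f x) (v x)
  rw [inner_add_left, inner_add_right, inner_neg_right, real_inner_smul_left,
    real_inner_smul_right]
  ring

theorem gs_pos (w x : ℝ) : 0 < gs w x := Real.exp_pos _

theorem gs_hd (w x : ℝ) : HasDerivAt (gs w) (-(w * x) * gs w x) x := by
  have h1 : HasDerivAt (fun x : ℝ => -(w * x ^ 2 / 2)) (-(w * x)) x := by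
    have h2 := (((hasDerivAt_pow 2 x).const_mul w).div_const 2).neg
    have e : -(w * ((2 : ℕ) * x ^ (2 - 1)) / 2) = -(w * x) := by
      push_cast
      ring
    rw [e] at h2
    exact h2
  have h3 := h1.exp
  rw [mul_comm] at h3
  exact h3

theorem gs_sm (w : ℝ) : ContDiff ℝ ∞ (gs w) := by
  unfold gs
  fun_prop

/-- the solution of `A* v = f` -/
theorem exists_v {w R : ℝ} {f : ℝ → ℂ} (h : CS (Set.Icc (-R) R) f)
    (h0 : ∫ x, f x * ((gs w x : ℝ) : ℂ) = 0) :
    ∃ v : ℝ → ℂ, CS (Set.Icc (-R) R) v ∧ ∀ x, deriv v x = (w * x) • v x - f x := by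
  have hcg : Continuous fun x => f x * ((gs w x : ℝ) : ℂ) :=
    h.c.mul (Complex.continuous_ofReal.comp (gs_sm w).continuous)
  let F : ℝ → ℂ := fun x => ∫ t in Set.Iic x, f t * ((gs w t : ℝ) : ℂ)
  have hig : Integrable fun x => f x * ((gs w x : ℝ) : ℂ) := by
    refine intg (K := Set.Icc (-R) R) isCompact_Icc hcg fun x hx => ?_
    rw [h.z x hx, zero_mul]
  have hF : ∀ x, HasDerivAt F (f x * ((gs w x : ℝ) : ℂ)) x := by
    intro x
    have h1 : F = fun x => (∫ t in Set.Iic 0, f t * ((gs w t : ℝ) : ℂ)) +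
        ∫ t in (0 : ℝ)..x, f t * ((gs w t : ℝ) : ℂ) := by
      funext y
      have h2 := intervalIntegral.integral_Iic_sub_Iic (a := 0) (b := y) hig.integrableOn
        hig.integrableOn
      rw [← h2]
      show F y = _
      ring
    rw [h1]
    exact (hcg.integral_hasStrictDerivAt 0 x).hasDerivAt.const_add _
  have hFl : ∀ x, x < -R → F x = 0 := by
    intro x hx
    show ∫ t in Set.Iic x, f t * ((gs w t : ℝ) : ℂ) = 0
    apply setIntegral_eq_zero_of_forall_eq_zero
    intro t ht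
    rw [h.z t, zero_mul]
    rintro ⟨h1, _⟩
    have h2 : t ≤ x := ht
    linarith
  have hFr : ∀ x, R < x → F x = 0 := by
    intro x hx
    rw [← h0]
    show ∫ t in Set.Iic x, f t * ((gs w t : ℝ) : ℂ) = _
    apply setIntegral_eq_integral_of_forall_compl_eq_zero
    intro t ht
    rw [h.z t, zero_mul]
    rintro ⟨_, h1⟩
    have h2 : x < t := not_le.1 ht
    linarith
  have hFs : ContDiff ℝ ∞ F := by
    refine contDiff_infty_iff_deriv.2 ⟨fun x => (hF x).differentiableAt, ?_⟩
    have h1 : deriv F = fun x => f x * ((gs w x : ℝ) : ℂ) := funext fun x => (hF x).deriv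
    rw [h1]
    exact h.sm.mul (Complex.ofRealCLM.contDiff.comp (gs_sm w))
  let v : ℝ → ℂ := fun x => -(((gs w x)⁻¹ : ℝ) : ℂ) * F x
  have hgi : ∀ x, HasDerivAt (fun x => (gs w x)⁻¹) (w * x * (gs w x)⁻¹) x := by
    intro x
    have h1 := (gs_hd w x).inv (gs_pos w x).ne'
    have h2 : -(-(w * x) * gs w x) / gs w x ^ 2 = w * x * (gs w x)⁻¹ := by
      have := (gs_pos w x).ne'
      field_simp
    rw [h2] at h1
    exact h1
  have hv : ∀ x, HasDerivAt v ((w * x) • v x - f x) x := by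
    intro x
    have h1 : HasDerivAt v (-(((w * x * (gs w x)⁻¹ : ℝ)) : ℂ) * F x +
        -(((gs w x)⁻¹ : ℝ) : ℂ) * (f x * ((gs w x : ℝ) : ℂ))) x :=
      ((hgi x).ofReal_comp.neg).mul (hF x)
    have h2 : -(((w * x * (gs w x)⁻¹ : ℝ)) : ℂ) * F x +
        -(((gs w x)⁻¹ : ℝ) : ℂ) * (f x * ((gs w x : ℝ) : ℂ)) = (w * x) • v x - f x := by
      have h3 : (((gs w x)⁻¹ : ℝ) : ℂ) * ((gs w x : ℝ) : ℂ) = 1 := by
        rw [← Complex.ofReal_mul, inv_mul_cancel₀ (gs_pos w x).ne', Complex.ofReal_one]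
      show _ = (w * x) • (-(((gs w x)⁻¹ : ℝ) : ℂ) * F x) - f x
      rw [Complex.real_smul, Complex.ofReal_mul (w * x)]
      linear_combination (-(f x)) * h3
    rw [h2] at h1
    exact h1
  have hz : ∀ x, x ∉ Set.Icc (-R) R → v x = 0 := by
    intro x hx
    show -(((gs w x)⁻¹ : ℝ) : ℂ) * F x = 0
    rw [Set.mem_Icc, not_and_or, not_le, not_le] at hx
    rcases hx with h1 | h1
    · rw [hFl x h1, mul_zero]
    · rw [hFr x h1, mul_zero]
  have hsm : ContDiff ℝ ∞ v := by
    have h1 : ContDiff ℝ ∞ fun x => (gs w x)⁻¹ := (gs_sm w).inv fun x => (gs_pos w x).ne'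
    exact (Complex.ofRealCLM.contDiff.comp h1).neg.mul hFs
  refine ⟨v, ⟨hsm, hz, fun x hx => ?_⟩, fun x => (hv x).deriv⟩
  rw [(hv x).deriv, hz x hx, h.z x hx]
  simp

theorem hol_aux {w : ℝ} (hw : 0 < w) {R : ℝ} (n : ℕ) : ∀ f : ℝ → ℂ, CS (Set.Icc (-R) R) f →
    (∀ j < n, ∫ x, f x * ((x ^ j * gs w x : ℝ) : ℂ) = 0) →
    (2 * n + 1) * w * ∫ x, ‖f x‖ ^ 2 ≤ ho w f := by
  induction n with
  | zero =>
    intro f h _
    have h1 := sq_id isCompact_Icc h w 1 (by norm_num)
    have h2 : 0 ≤ ∫ x, ‖(1 : ℝ) • deriv f x + (w * x) • f x‖ ^ 2 :=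
      integral_nonneg fun x => by positivity
    rw [h1] at h2
    push_cast
    linarith
  | succ n ih =>
    intro f h hm
    have h0 : ∫ x, f x * ((gs w x : ℝ) : ℂ) = 0 := by
      have h1 := hm 0 (Nat.succ_pos n)
      simp only [pow_zero, one_mul] at h1
      exact h1
    obtain ⟨v, hv, hv'⟩ := exists_v h h0
    have hA : ∀ x, (-1 : ℝ) • deriv v x + (w * x) • v x = f x := by
      intro x
      rw [hv' x, neg_smul, one_smul]
      ring
    -- the moments of `v`
    have hmv : ∀ j < n, ∫ x, v x * ((x ^ j * gs w x : ℝ) : ℂ) = 0 := by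
      intro j hj
      have hd : ∀ x, HasDerivAt (fun x => v x * ((x ^ (j + 1) * gs w x : ℝ) : ℂ))
          (((j + 1 : ℕ) : ℂ) * (v x * ((x ^ j * gs w x : ℝ) : ℂ)) -
            f x * ((x ^ (j + 1) * gs w x : ℝ) : ℂ)) x := by
        intro x
        have h1 : HasDerivAt (fun x => v x * ((x ^ (j + 1) * gs w x : ℝ) : ℂ))
            (deriv v x * ((x ^ (j + 1) * gs w x : ℝ) : ℂ) +
            v x * ((((j + 1 : ℕ) : ℝ) * x ^ (j + 1 - 1) * gs w x +
              x ^ (j + 1) * (-(w * x) * gs w x) : ℝ) : ℂ)) x :=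
          (hv.hd x).mul (((hasDerivAt_pow (j + 1) x).mul (gs_hd w x)).ofReal_comp)
        have h2 : deriv v x * ((x ^ (j + 1) * gs w x : ℝ) : ℂ) +
            v x * ((((j + 1 : ℕ) : ℝ) * x ^ (j + 1 - 1) * gs w x +
              x ^ (j + 1) * (-(w * x) * gs w x) : ℝ) : ℂ) =
            (((j + 1 : ℕ) : ℂ) * (v x * ((x ^ j * gs w x : ℝ) : ℂ)) -
              f x * ((x ^ (j + 1) * gs w x : ℝ) : ℂ)) := by
          rw [hv' x, Nat.add_sub_cancel, Complex.real_smul]
          push_cast
          ring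
        rw [h2] at h1
        exact h1
      have hcg : Continuous fun x : ℝ => ((x ^ j * gs w x : ℝ) : ℂ) :=
        Complex.continuous_ofReal.comp ((continuous_pow j).mul (gs_sm w).continuous)
      have hcg' : Continuous fun x : ℝ => ((x ^ (j + 1) * gs w x : ℝ) : ℂ) :=
        Complex.continuous_ofReal.comp ((continuous_pow (j + 1)).mul (gs_sm w).continuous)
      have i1 : Integrable fun x => v x * ((x ^ j * gs w x : ℝ) : ℂ) := by
        refine intg (K := Set.Icc (-R) R) isCompact_Icc (hv.c.mul hcg) fun x hx => ?_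
        rw [hv.z x hx, zero_mul]
      have i2 : Integrable fun x => f x * ((x ^ (j + 1) * gs w x : ℝ) : ℂ) := by
        refine intg (K := Set.Icc (-R) R) isCompact_Icc (h.c.mul hcg') fun x hx => ?_
        rw [h.z x hx, zero_mul]
      have h3 : ∫ x, (((j + 1 : ℕ) : ℂ) * (v x * ((x ^ j * gs w x : ℝ) : ℂ)) -
            f x * ((x ^ (j + 1) * gs w x : ℝ) : ℂ)) = 0 := by
        refine int_zero (K := Set.Icc (-R) R) isCompact_Icc hd
          ((continuous_const.mul (hv.c.mul hcg)).sub (h.c.mul hcg')) (fun x hx => ?_)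
          (fun x hx => ?_)
        · rw [hv.z x hx, zero_mul]
        · rw [hv.z x hx, h.z x hx]
          simp
      rw [integral_sub (i1.const_mul _) i2, integral_const_mul, hm (j + 1) (by omega),
        sub_zero] at h3
      rcases mul_eq_zero.1 h3 with h4 | h4
      · exfalso
        exact Nat.succ_ne_zero j (by exact_mod_cast h4)
      · exact h4
    have h1 := ih v hv hmv
    have h2 := sq_id isCompact_Icc hv w (-1) (by norm_num)
    simp only [hA] at h2
    have h3 := sq_id isCompact_Icc h w 1 (by norm_num)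
    simp only [one_smul] at h3
    have h4 := adj isCompact_Icc h hv w
    have hA' : ∀ x, -deriv v x + (w * x) • v x = f x := by
      intro x
      have := hA x
      rwa [neg_smul, one_smul] at this
    simp only [hA', real_inner_self_eq_norm_sq] at h4
    set c : ℝ := (2 * n + 2) * w with hc
    have hc0 : 0 < c := by positivity
    have hcc := h.c
    have hcc' := h.c'
    have hvc := hv.c
    have i1 : Integrable fun x => ‖deriv f x + (w * x) • f x‖ ^ 2 := by
      refine intg (K := Set.Icc (-R) R) isCompact_Icc (by fun_prop) fun x hx => ?_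
      rw [h.z x hx, h.z' x hx]
      simp
    have i2 : Integrable fun x => ‖v x‖ ^ 2 := by
      refine intg (K := Set.Icc (-R) R) isCompact_Icc (by fun_prop) fun x hx => ?_
      rw [hv.z x hx]
      simp
    have i3 : Integrable fun x => inner ℝ (deriv f x + (w * x) • f x) (v x) := by
      refine intg (K := Set.Icc (-R) R) isCompact_Icc (Continuous.inner (by fun_prop) hvc) fun x hx => ?_
      rw [hv.z x hx]
      simp
    have h5 : 2 * ∫ x, inner ℝ (deriv f x + (w * x) • f x) (v x) ≤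
        c⁻¹ * (∫ x, ‖deriv f x + (w * x) • f x‖ ^ 2) + c * ∫ x, ‖v x‖ ^ 2 := by
      rw [← integral_const_mul, ← integral_const_mul, ← integral_const_mul,
        ← integral_add (i1.const_mul _) (i2.const_mul _)]
      apply integral_mono (i3.const_mul _) ((i1.const_mul _).add (i2.const_mul _))
      intro x
      show 2 * inner ℝ (deriv f x + (w * x) • f x) (v x) ≤
        c⁻¹ * ‖deriv f x + (w * x) • f x‖ ^ 2 + c * ‖v x‖ ^ 2
      have h6 := real_inner_le_norm (deriv f x + (w * x) • f x) (v x)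
      set a : ℝ := ‖deriv f x + (w * x) • f x‖
      set b : ℝ := ‖v x‖
      have h7 : 0 ≤ c⁻¹ * (a - c * b) ^ 2 := by positivity
      have h8 : c⁻¹ * (a - c * b) ^ 2 = c⁻¹ * a ^ 2 + c * b ^ 2 - 2 * (a * b) := by
        field_simp
        ring
      linarith
    rw [h4, h3] at h5
    have h6 : c * ∫ x, ‖v x‖ ^ 2 ≤ ∫ x, ‖f x‖ ^ 2 := by
      rw [h2, hc]
      linarith
    have h7 : ∫ x, ‖f x‖ ^ 2 ≤ c⁻¹ * (ho w f - 1 * w * ∫ x, ‖f x‖ ^ 2) := by linarith
    have h8 : c * ∫ x, ‖f x‖ ^ 2 ≤ ho w f - 1 * w * ∫ x, ‖f x‖ ^ 2 := by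
      have := mul_le_mul_of_nonneg_left h7 hc0.le
      rwa [← mul_assoc, mul_inv_cancel₀ hc0.ne', one_mul] at this
    rw [hc] at h8
    push_cast
    linarith

theorem s_hol : HolStmt := by
  intro w n hw f hf hc hm
  obtain ⟨R, hR⟩ := hc.isBounded.subset_closedBall 0
  have hR' : tsupport f ⊆ Set.Icc (-R) R := by
    intro x hx
    have h1 := hR hx
    rw [Metric.mem_closedBall, Real.dist_eq, sub_zero, abs_le] at h1
    exact h1
  have h : CS (Set.Icc (-R) R) f := by
    refine ⟨hf, fun x hx => ?_, fun x hx => ?_⟩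
    · exact image_eq_zero_of_notMem_tsupport fun h1 => hx (hR' h1)
    · have h1 : x ∉ tsupport (deriv f) := fun h1 => hx (hR' (tsupport_deriv_subset h1))
      exact image_eq_zero_of_notMem_tsupport h1
  exact hol_aux hw n f h hm

end Pool.Agent.KACG.H89
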